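import Pool.Agent.X154.BergerX

set_option autoImplicit false

/-!
The constant fields `X = a E₁ + b E₂` do not minimise the energy of unit vector fields on the
Berger spheres `(S³, g_μ)`, `μ ≥ 7/4`: there is a smooth `g_μ`-unit vector field `V` on `S³` with
`E(V) < (3/2 + μ + 2 (1 - μ) / μ) vol(S³, g_μ)`, the energy of all these fields `X`.

All notions are declared in `Pool.Agent.X154.Berger`: `energy μ V` is
`(3/2) vol + (1/2) ∫ ‖∇V‖² dv_μ`, with `‖∇V‖²` the sum of the squares of `g_μ(∇_{eᵢ} V, eⱼ)` over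
the orthonormal frame `H / √μ, E₁, E₂`, these being given by the Koszul formula.
-/

namespace Pool.Agent.Results.MP_627409_gt.SmallerEnergy

open Pool.Agent.X154.Berger

theorem result (μ : ℝ) (hμ : 7 / 4 ≤ μ) :
    ∃ V : R4 → R4, IsUnitField μ V ∧
      energy μ V < (3 / 2 + μ + 2 * ((1 - μ) / μ)) * vol μ ∧
      ∀ a b : ℝ, a ^ 2 + b ^ 2 = 1 → energy μ V < energy μ (fun x => a • J1 x + b • J2 x) := by
  have h0 : 0 < μ := by linarith
  have key : energy μ (VV μ) < (3 / 2 + μ + 2 * ((1 - μ) / μ)) * vol μ := by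
    rw [energy_VV h0]
    have hv : 0 < vol μ := by
      rw [vol_eq]
      exact mul_pos (Real.sqrt_pos.mpr h0) sphere_pos
    apply mul_lt_mul_of_pos_right _ hv
    obtain ⟨s, hs⟩ : ∃ s, s = √μ := ⟨_, rfl⟩
    have hs0 : 0 < s := by rw [hs]; exact Real.sqrt_pos.mpr h0
    have hμs : μ = s * s := by rw [hs]; exact (Real.mul_self_sqrt h0.le).symm
    rw [← hs]
    have hs1 : 1.32 ≤ s := by
      by_contra hc
      push Not at hc
      nlinarith
    have h1 : 2 * ((1 - μ) / μ) - 8 / 3 * (1 - s) = 2 / 3 * (s - 1) * (4 * μ - 3 * s - 3) / μ := by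
      rw [hμs]
      field_simp
      ring
    have h2 : 0 < 2 / 3 * (s - 1) * (4 * μ - 3 * s - 3) / μ := by
      apply div_pos _ h0
      apply mul_pos
      · nlinarith
      · rw [hμs]
        nlinarith
    linarith
  refine ⟨VV μ, unit_VV h0, key, fun a b hab => ?_⟩
  change _ < energy μ (XX a b)
  rw [energy_XX h0 hab]
  exact key

end Pool.Agent.Results.MP_627409_gt.SmallerEnergy
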